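import Pool.Agent.Results.MP_f76cdc_ag.DivisibilityFails
import Pool.Agent.Results.MP_f76cdc_ag.AllDimensions
import Pool.Agent.W2helper79.L2G.Form
import Pool.Agent.W2helper79.L2G.Params
import Pool.Agent.W2helper79.L2G.Nec

/-!
# Spaces of logarithmic differentials in characteristic two, every dimension

The definitions are those of `DivisibilityFails.lean` (`IsSpaceL p k m n V`: `V` is a space
`L_{m+1,n}`).

In characteristic two, for every `n ≥ 2` and every `m` with `m + 1 ≥ 2 ^ (4 n - 3)`, a space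
`L_{m+1,n}` exists if and only if `2 ^ (n - 1)` divides `m + 1`.

The construction.  Let `N = 2 ^ (n - 1) - 1` and let `P, Q, A, B` be polynomials with
`A P + Q B ^ N = 1`, `(P Q)' = 1` and `deg B < deg A`.  For the nonzero elements `c` of the field with
`2 ^ n` elements put
`F_c = c P + Q ∑ c ^ (2 ^ j) A ^ (2 ^ j - 2) B ^ (2 ^ (n - 1) - 2 ^ j)`, `1 ≤ j ≤ n - 1`.
All of them have the degree `d = deg Q + (N - 1) deg A`.  If `h` is a nonzero linear form on this
field, the derivative of the product `P_h` of the `F_c` with `h (c) = 1` is `1`: this follows from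
`Q F_c' = c + Q' F_c` and from the identity `∑ c / F_c = Q / P_h`, which is proved with the trace
`X_c = ∑ (c A / B) ^ (2 ^ j)` and its Artin-Schreier equation.  So the forms
`dz / P_h = dlog P_h` are the nonzero elements of a space `L_{2 ^ (n-1) d, n}`.  One takes
`P = 1 + z ^ (2 r + 1)` and `Q = z ^ (2 t) P + z`; since the roots of `P` are simple there is a `B`
of degree `2 r + 1` such that `P` divides `Q B ^ N - 1`, and
`d = (2 r + 1) + 2 N t + N (N - 1) (2 r + 1)`; this gives all the large odd numbers `d`.  For the even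
numbers see `AllDimensions.lean`.

The divisibility.  The nonzero elements of a space `L_{m+1,n}` are `dz / P` with `P` of degree
`m + 1` and of derivative `1`, and the set of zeros of the polynomial of a sum is the symmetric
difference of the sets of zeros; a double count gives that `2 ^ (n - 1)` divides `m + 1`.
-/

set_option autoImplicit false

namespace Pool.Agent.Results.MP_f76cdc_ag.CharTwoEveryDimension

open Pool.Agent.Results.MP_f76cdc_ag.DivisibilityFails

lemma exists_space (k : Type*) [Field k] [IsAlgClosed k] [Algebra (ZMod 2) k] (v M r t m : ℕ)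
    (hv : 1 ≤ v) (hM : 2 ^ v = M + 2) (ht : 1 ≤ t)
    (hm : m + 1 = 2 ^ v * ((2 * r + 1) + 2 * (M + 1) * t + (M + 1) * M * (2 * r + 1))) :
    ∃ V : Submodule (ZMod 2) (Ω[RatFunc k⁄k]), IsSpaceL 2 k m (v + 1) V := by
  classical
  obtain ⟨P, Q, A, B, hPQ, hAB, hB, hab, hP, hdeg⟩ := W2helper79.L2G.params (k := k) M r t ht
  have hfin : Fintype (GaloisField 2 (v + 1)) := Fintype.ofFinite _
  have hE : Fintype.card (GaloisField 2 (v + 1)) = 2 ^ (v + 1) := by
    rw [← Nat.card_eq_fintype_card, GaloisField.card 2 (v + 1) (by omega)]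
  let i : GaloisField 2 (v + 1) →+* k :=
    (IsAlgClosed.lift (R := ZMod 2) (S := GaloisField 2 (v + 1)) (M := k)).toRingHom
  have e1 : 2 ^ v - 1 = M + 1 := by omega
  have e2 : 2 ^ v - 2 = M := by omega
  have hF : ∀ h : GaloisField 2 (v + 1) →ₗ[ZMod 2] ZMod 2, h ≠ 0 →
      ∃ R : Polynomial k, R ≠ 0 ∧ R.natDegree = m + 1 ∧
      W2helper79.L2G.form i v P Q A B h =
        (algebraMap (Polynomial k) (RatFunc k) R)⁻¹ • W515.LD.dX k ∧
      W2helper79.L2G.form i v P Q A B h =
        W515.LD.dlog (algebraMap (Polynomial k) (RatFunc k) R) := by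
    intro h hh
    obtain ⟨R, hR0, hR, hR2, hR3⟩ := W2helper79.L2G.form_eq i v hv hE P Q A B hPQ
      (by rw [e1]; exact hAB) hB hab (by rw [e2]; exact hP) h hh
    refine ⟨R, hR0, ?_, hR2, hR3⟩
    rw [hR, e2, hdeg, hm]
  refine ⟨LinearMap.range (W2helper79.L2G.form i v P Q A B), ?_, ?_, ?_⟩
  · rw [LinearMap.finrank_range_of_inj]
    · rw [Subspace.dual_finrank_eq, GaloisField.finrank 2 (by omega)]
    · rw [← LinearMap.ker_eq_bot, LinearMap.ker_eq_bot']
      intro x h0
      by_contra hx
      obtain ⟨R, hR0, -, hR, -⟩ := hF x hx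
      rw [h0] at hR
      rcases smul_eq_zero.1 hR.symm with h1 | h1
      · rw [inv_eq_zero, FaithfulSMul.algebraMap_eq_zero_iff] at h1
        exact hR0 h1
      · exact W515.LD.dX_ne_zero h1
  · rintro ω ⟨x, rfl⟩ h0
    have hx : x ≠ 0 := by
      rintro rfl
      exact h0 (map_zero _)
    obtain ⟨R, hR0, -, -, hR⟩ := hF x hx
    refine ⟨algebraMap (Polynomial k) (RatFunc k) R, ?_, hR⟩
    rw [ne_eq, FaithfulSMul.algebraMap_eq_zero_iff]
    exact hR0
  · rintro ω ⟨x, rfl⟩ h0
    have hx : x ≠ 0 := by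
      rintro rfl
      exact h0 (map_zero _)
    obtain ⟨R, hR0, hR, hR2, -⟩ := hF x hx
    refine ⟨(algebraMap (Polynomial k) (RatFunc k) R)⁻¹, ?_, hR2, fun a => ordAt_inv a R hR0, ?_⟩
    · rw [ne_eq, inv_eq_zero, FaithfulSMul.algebraMap_eq_zero_iff]
      exact hR0
    · rw [ordInfty, RatFunc.intDegree_inv, RatFunc.intDegree_polynomial, hR]
      push_cast
      ring

/-- Let `k` be an algebraically closed field of characteristic two (that is, with a structure of
algebra over the field with two elements) and `n ≥ 2`.  For every `m` with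
`m + 1 ≥ 2 ^ (4 n - 3)`, that is, for all but finitely many `m`, a space `L_{m+1,n}` exists if and
only if `2 ^ (n - 1)` divides `m + 1`. -/
theorem result (k : Type*) [Field k] [IsAlgClosed k] [Algebra (ZMod 2) k] (n m : ℕ) (hn : 2 ≤ n)
    (hm : 2 ^ (4 * n - 3) ≤ m + 1) :
    (∃ V : Submodule (ZMod 2) (Ω[RatFunc k⁄k]), IsSpaceL 2 k m n V) ↔ 2 ^ (n - 1) ∣ m + 1 := by
  obtain ⟨v, rfl⟩ : ∃ v, n = v + 1 := ⟨n - 1, by omega⟩
  have hv : 1 ≤ v := by omega
  rw [Nat.add_sub_cancel]
  constructor
  · rintro ⟨V, hV⟩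
    exact W2helper79.L2G.dvd_all v m V hV
  · rintro ⟨l, hl⟩
    have hpos : 0 < 2 ^ v := by positivity
    have e4 : 4 * (v + 1) - 3 = v + (3 * v + 1) := by omega
    rw [e4, pow_add, hl] at hm
    have hl2 : 2 ^ (3 * v + 1) ≤ l := Nat.le_of_mul_le_mul_left hm hpos
    rcases Nat.even_or_odd l with hev | hodd
    · -- the even case is in the starting library
      obtain ⟨l', hl'⟩ := hev
      have h1 := (AllDimensions.result 2 k (v + 1) (by omega)).2.1 m
      apply h1
      · refine ⟨l', ?_⟩
        rw [hl, hl', pow_succ]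
        ring
      · rw [hl]
        have e5 : 2 * (v + 1) - 1 = v + (v + 1) := by omega
        rw [e5, pow_add]
        norm_num
        exact le_trans (Nat.pow_le_pow_right (by norm_num) (by omega)) hl2
    · obtain ⟨M', hM'⟩ : ∃ M', 2 ^ v = 2 * M' + 2 := by
        obtain ⟨w, rfl⟩ : ∃ w, v = w + 1 := ⟨v - 1, by omega⟩
        refine ⟨2 ^ w - 1, ?_⟩
        have : 0 < 2 ^ w := by positivity
        rw [pow_succ]
        omega
      have h3 : 2 * (2 * M' + 2) ^ 3 ≤ l := by
        rw [← hM', ← pow_mul]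
        calc 2 * 2 ^ (v * 3) = 2 ^ (3 * v + 1) := by rw [pow_succ]; ring
          _ ≤ l := hl2
      obtain ⟨r, t, ht, hrt⟩ := W2helper79.L2G.exists_rt M' l hodd h3
      apply exists_space k v (2 * M') r t m hv hM' ht
      rw [hl, hrt]

end Pool.Agent.Results.MP_f76cdc_ag.CharTwoEveryDimension
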