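import Pool.Agent.Results.MP_f76cdc_ag.DivisibilityFails
import Pool.Agent.W2helper79.L2.Families
import Pool.Agent.W2helper79.L2.Necessary

/-!
# Three-dimensional spaces of logarithmic differentials in characteristic two

The definitions are those of `DivisibilityFails.lean` (`IsSpaceL p k m n V`: `V` is a space
`L_{m+1,n}`).

In characteristic two a space `L_{m+1,3}` exists if and only if `4` divides `m + 1`.

The construction.  Let `A`, `B`, `E` be polynomials over `F_2` with
`deg A = N > deg B, deg E` and
`E ^ 2 (B E' + E B') + A ^ 2 (A E' + E A') + B ^ 2 (A B' + B A') = 1`.  For the nonzero elements `c`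
of the field with eight elements put `F_c = c A + c ^ 2 B + c ^ 4 E`; for a nonzero linear form `h`
on this field let `P_h` be the product of the four polynomials `F_c` with `h (c) = 1`.  Then the
derivative of `P_h` is `1`, and the forms `dz / P_h = dlog P_h` are the nonzero elements of a space
`L_{4N,3}`.  Such polynomials exist in every degree `N ≥ 1`: one takes `A = z Y2 ^ 2`,
`B = 1 + z Y0 ^ 2`, `E = z Y1 ^ 2` with `(1 + z Y0 ^ 2) Y2 + z Y1 ^ 3 = 1`, for instance
`Y0 = 0`, `Y1 = z ^ h`, `Y2 = 1 + z ^ (3h+1)` for `N = 6h + 3`, and composes with `z ^ 2 + z`.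

The divisibility.  The nonzero elements of a space `L_{m+1,3}` are `dz / P` with `P` of degree
`m + 1` and of derivative `1`, and the set of zeros of the polynomial of a sum is the symmetric
difference of the sets of zeros; counting gives `m + 1 = 4 t`, where `t` is the number of common
zeros for three independent forms.
-/

set_option autoImplicit false

namespace Pool.Agent.Results.MP_f76cdc_ag.DimensionThreeCharTwo

open Pool.Agent.Results.MP_f76cdc_ag.DivisibilityFails

lemma exists_space (k : Type*) [Field k] [IsAlgClosed k] [Algebra (ZMod 2) k] (m N : ℕ)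
    (hN : 0 < N) (hm : m + 1 = 4 * N) :
    ∃ V : Submodule (ZMod 2) (Ω[RatFunc k⁄k]), IsSpaceL 2 k m 3 V := by
  obtain ⟨F, hF⟩ := W2helper79.L2.exists_form N (W2helper79.L2.adm_all (k := k) N hN)
  refine ⟨LinearMap.range F, ?_, ?_, ?_⟩
  · rw [LinearMap.finrank_range_of_inj]
    · simp
    · rw [← LinearMap.ker_eq_bot, LinearMap.ker_eq_bot']
      intro x h0
      by_contra hx
      obtain ⟨P, hP0, -, hP, -⟩ := hF x hx
      rw [h0] at hP
      rcases smul_eq_zero.1 hP.symm with h1 | h1
      · rw [inv_eq_zero, FaithfulSMul.algebraMap_eq_zero_iff] at h1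
        exact hP0 h1
      · exact W515.LD.dX_ne_zero h1
  · rintro ω ⟨x, rfl⟩ h0
    have hx : x ≠ 0 := by
      rintro rfl
      exact h0 (map_zero _)
    obtain ⟨P, hP0, -, -, hP⟩ := hF x hx
    refine ⟨algebraMap (Polynomial k) (RatFunc k) P, ?_, hP⟩
    rw [ne_eq, FaithfulSMul.algebraMap_eq_zero_iff]
    exact hP0
  · rintro ω ⟨x, rfl⟩ h0
    have hx : x ≠ 0 := by
      rintro rfl
      exact h0 (map_zero _)
    obtain ⟨P, hP0, hP, hP2, -⟩ := hF x hx
    refine ⟨(algebraMap (Polynomial k) (RatFunc k) P)⁻¹, ?_, hP2, fun a => ordAt_inv a P hP0, ?_⟩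
    · rw [ne_eq, inv_eq_zero, FaithfulSMul.algebraMap_eq_zero_iff]
      exact hP0
    · rw [ordInfty, RatFunc.intDegree_inv, RatFunc.intDegree_polynomial]
      have : P.natDegree = m + 1 := by omega
      rw [this]
      push_cast
      ring

/-- Let `k` be an algebraically closed field of characteristic two (that is, with a structure of
algebra over the field with two elements).  A space `L_{m+1,3}` exists if and only if `4` divides
`m + 1`. -/
theorem result (k : Type*) [Field k] [IsAlgClosed k] [Algebra (ZMod 2) k] (m : ℕ) :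
    (∃ V : Submodule (ZMod 2) (Ω[RatFunc k⁄k]), IsSpaceL 2 k m 3 V) ↔ 4 ∣ m + 1 := by
  constructor
  · rintro ⟨V, hV⟩
    exact W2helper79.L2.dvd_three m V hV
  · rintro ⟨N, hN⟩
    exact exists_space k m N (by omega) hN

end Pool.Agent.Results.MP_f76cdc_ag.DimensionThreeCharTwo
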