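import Pool.Agent.Results.MP_f76cdc_ag.DivisibilityFails
import Pool.Agent.W2helper79.L3.Deg

/-!
# Spaces `L_{m+1,n}` for which `m + 1` is divisible by `p ^ (n-1)` only

The definitions are those of `DivisibilityFails.lean` (`IsSpaceL p k m n V`: `V` is a space
`L_{m+1,n}`).

It is known that `p ^ (n-1)` divides `m + 1` if a space `L_{m+1,n}` exists.  The starting files give
such spaces only if `p ^ n` divides `m + 1`.  Here, for every prime `p`, every `n ≥ 2` and every
`d ≥ 1`, there is a space `L_{m+1,n}` with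

  `m + 1 = p ^ (n-1) ((p-1) + p d (p ^ n - p ^ (n-1) - 1))`,

so that `p ^ n` does not divide `m + 1`.

The construction.  Let `a` be an injective linear map from `F_p ^ n` to `k` and `u_x = a(x) z ^ d +
a(x) ^ p`.  Let `Δ` be the product of the `u_x` over representatives of the points of the projective
space and `w_c = Δ ∑ c(x) / u_x`; these are constants times `p`-th powers.  By the Chinese remainder
theorem there is a polynomial `G` of degree less than the degree of `Δ` such that, for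
`V = z Δ ^ p + G ^ p`, the polynomial `u_x ^ p` divides `V - w_c` whenever `c(x) = 1`.  The
logarithmic forms are the sums of the `c(x) dlog (V - w_c)` over all `c`.  The degree of `V` is
`p deg Δ + 1`, and this gives the new values of `m`.
-/

set_option autoImplicit false

namespace Pool.Agent.Results.MP_f76cdc_ag.ExactPowerOfP

open Pool.Agent.Results.MP_f76cdc_ag.DivisibilityFails

lemma exists_space (p : ℕ) [Fact p.Prime] (k : Type*) [Field k] [IsAlgClosed k]
    [Algebra (ZMod p) k] (n d A : ℕ) (hd : 1 ≤ d) (hA : A + p ^ (n + 1) + 1 = p ^ (n + 2)) (m : ℕ)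
    (hm : m + 1 = p ^ (n + 1) * ((p - 1) + p * d * A)) :
    ∃ V : Submodule (ZMod p) (Ω[RatFunc k⁄k]), IsSpaceL p k m (n + 2) V := by
  obtain ⟨F, hF1, hF2⟩ := W2helper79.L3.construction0 p k n d A hd hA
  refine ⟨LinearMap.range F, ?_, ?_, ?_⟩
  · rw [LinearMap.finrank_range_of_inj]
    · simp
    · rw [← LinearMap.ker_eq_bot, LinearMap.ker_eq_bot']
      intro x h0
      by_contra hx
      obtain ⟨P, hP0, -, hP⟩ := hF2 x hx
      rw [h0] at hP
      rcases smul_eq_zero.1 hP.symm with h1 | h1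
      · rw [inv_eq_zero, FaithfulSMul.algebraMap_eq_zero_iff] at h1
        exact hP0 h1
      · exact W515.LD.dX_ne_zero h1
  · rintro ω ⟨x, rfl⟩ -
    obtain ⟨f, hf, hf2⟩ := hF1 x
    exact ⟨f, hf, hf2⟩
  · rintro ω ⟨x, rfl⟩ h0
    have hx : x ≠ 0 := by
      rintro rfl
      exact h0 (map_zero _)
    obtain ⟨P, hP0, hP, hP2⟩ := hF2 x hx
    refine ⟨(algebraMap (Polynomial k) (RatFunc k) P)⁻¹, ?_, hP2, fun a => ordAt_inv a P hP0, ?_⟩
    · rw [ne_eq, inv_eq_zero, FaithfulSMul.algebraMap_eq_zero_iff]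
      exact hP0
    · rw [ordInfty, RatFunc.intDegree_inv, RatFunc.intDegree_polynomial, hP, ← hm]
      push_cast
      ring

/-- Let `p` be a prime, `k` an algebraically closed field of characteristic `p` (that is, with a
structure of algebra over the field with `p` elements) and `n ≥ 2`.

* For every `d ≥ 1` a space `L_{m+1,n}` exists for
  `m + 1 = p ^ (n - 1) ((p - 1) + p d (p ^ n - p ^ (n - 1) - 1))`.
* There are arbitrarily large `m` such that a space `L_{m+1,n}` exists, `p ^ n` does not divide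
  `m + 1`, and `m + 1` is prime to `p - 1`. -/
theorem result (p : ℕ) [Fact p.Prime] (k : Type*) [Field k] [IsAlgClosed k]
    [Algebra (ZMod p) k] (n : ℕ) (hn : 2 ≤ n) :
    (∀ d m : ℕ, 1 ≤ d → m + 1 = p ^ (n - 1) * ((p - 1) + p * d * (p ^ n - p ^ (n - 1) - 1)) →
      ∃ V : Submodule (ZMod p) (Ω[RatFunc k⁄k]), IsSpaceL p k m n V) ∧
    (∀ M : ℕ, ∃ m : ℕ, M ≤ m ∧ (∃ V : Submodule (ZMod p) (Ω[RatFunc k⁄k]), IsSpaceL p k m n V) ∧
      ¬ p ^ n ∣ m + 1 ∧ Nat.Coprime (m + 1) (p - 1)) := by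
  have hp2 := (Fact.out : p.Prime).two_le
  obtain ⟨n, rfl⟩ : ∃ s, n = s + 2 := ⟨n - 2, by omega⟩
  rw [show n + 2 - 1 = n + 1 by omega]
  have hB : 2 ≤ p ^ (n + 1) := le_trans hp2 (Nat.le_self_pow (by omega) p)
  have hA : (p ^ (n + 2) - p ^ (n + 1) - 1) + p ^ (n + 1) + 1 = p ^ (n + 2) := by
    have h1 : p ^ (n + 2) = p ^ (n + 1) * p := pow_succ _ _
    have h2 : p ^ (n + 1) * 2 ≤ p ^ (n + 1) * p := Nat.mul_le_mul_left _ hp2
    omega
  have h1 : ∀ d m : ℕ, 1 ≤ d →
      m + 1 = p ^ (n + 1) * ((p - 1) + p * d * (p ^ (n + 2) - p ^ (n + 1) - 1)) →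
      ∃ V : Submodule (ZMod p) (Ω[RatFunc k⁄k]), IsSpaceL p k m (n + 2) V :=
    fun d m hd hm => exists_space p k n d _ hd hA m hm
  refine ⟨h1, fun M => ?_⟩
  set A := p ^ (n + 2) - p ^ (n + 1) - 1 with hAdef
  obtain ⟨q, hq⟩ : ∃ q, p = q + 1 := ⟨p - 1, by omega⟩
  have hA1 : 1 ≤ A := by
    have h1 : p ^ (n + 2) = p ^ (n + 1) * p := pow_succ _ _
    have h2 : p ^ (n + 1) * 2 ≤ p ^ (n + 1) * p := Nat.mul_le_mul_left _ hp2
    omega
  have hAq : ∃ t, A + 1 = q * t := by
    refine ⟨p ^ (n + 1), ?_⟩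
    have h1 : p ^ (n + 2) = p ^ (n + 1) * p := pow_succ _ _
    have h2 : p ^ (n + 1) * p = p ^ (n + 1) * q + p ^ (n + 1) := by rw [hq]; ring
    have h3 : q * p ^ (n + 1) = p ^ (n + 1) * q := mul_comm _ _
    omega
  obtain ⟨t, ht⟩ := hAq
  set d := q * M + 1 with hd
  obtain ⟨m, hm⟩ : ∃ m, m + 1 = p ^ (n + 1) * ((p - 1) + p * d * A) := by
    refine ⟨p ^ (n + 1) * ((p - 1) + p * d * A) - 1, ?_⟩
    have h3 : 0 < p ^ (n + 1) * ((p - 1) + p * d * A) := by
      apply Nat.mul_pos (by omega)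
      omega
    omega
  have hq1 : 1 ≤ q := by omega
  refine ⟨m, ?_, h1 d m (by omega) hm, ?_, ?_⟩
  · have h3 : M + 1 ≤ d := by
      rw [hd]
      have : 1 * M ≤ q * M := Nat.mul_le_mul_right _ hq1
      omega
    have h4 : d ≤ p * d * A := by
      calc d = 1 * d * 1 := by ring
        _ ≤ p * d * A := Nat.mul_le_mul (Nat.mul_le_mul_right _ (by omega)) hA1
    have h5 : 1 * ((p - 1) + p * d * A) ≤ p ^ (n + 1) * ((p - 1) + p * d * A) :=
      Nat.mul_le_mul_right _ (by omega)
    omega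
  · rw [hm, show p ^ (n + 2) = p ^ (n + 1) * p from pow_succ _ _]
    intro h
    have h3 : p ∣ (p - 1) + p * d * A := Nat.dvd_of_mul_dvd_mul_left (by omega) h
    rw [mul_assoc, Nat.dvd_add_left (dvd_mul_right _ _)] at h3
    have := Nat.le_of_dvd (by omega) h3
    omega
  · rw [hm, hq, Nat.add_sub_cancel]
    apply Nat.Coprime.mul_left
    · apply Nat.Coprime.pow_left
      simp
    · -- `q + (q + 1) d A` is congruent to `-1` modulo `q`
      have h3 : q + (q + 1) * d * A + 1 = q * (1 + (d * A + M * A + t)) := by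
        have h5 : d * A + 1 = q * (M * A + t) := by
          rw [hd]
          calc (q * M + 1) * A + 1 = q * (M * A) + (A + 1) := by ring
            _ = _ := by rw [ht]; ring
        calc q + (q + 1) * d * A + 1 = q + q * (d * A) + (d * A + 1) := by ring
          _ = _ := by rw [h5]; ring
      rw [Nat.coprime_iff_gcd_eq_one]
      set g := Nat.gcd (q + (q + 1) * d * A) q with hg
      have h6 : g ∣ q + (q + 1) * d * A := Nat.gcd_dvd_left _ _
      have h7 : g ∣ q := Nat.gcd_dvd_right _ _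
      have h8 : g ∣ q + (q + 1) * d * A + 1 := by
        rw [h3]
        exact h7.mul_right _
      exact Nat.dvd_one.1 ((Nat.dvd_add_right h6).1 h8)

end Pool.Agent.Results.MP_f76cdc_ag.ExactPowerOfP
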